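import Mathlib

/-!
# The Beauzamy-Enflo concentration constant: definitions and translation to coefficient sequences
-/

namespace Pool.Agent.RTV

open Filter Topology Metric

/-- Bounded analytic functions on the open unit disc. -/
def IsHinf (f : ℂ → ℂ) : Prop :=
  DifferentiableOn ℂ f (ball 0 1) ∧ ∃ K : ℝ, ∀ z ∈ ball (0 : ℂ) 1, ‖f z‖ ≤ K

/-- The Taylor coefficient `a_j` of `f` at `0`. -/
noncomputable def coef (f : ℂ → ℂ) (j : ℕ) : ℂ := iteratedDeriv j f 0 / (j.factorial : ℂ)

/-- The radial boundary value `f(e^{it}) = lim_{r → 1-} f(r e^{it})`. -/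
noncomputable def bv (f : ℂ → ℂ) (t : ℝ) : ℂ :=
  limUnder (𝓝[<] (1 : ℝ)) fun r : ℝ => f ((r : ℂ) * Complex.exp (t * Complex.I))

/-- The norm `∑_j |a_j|`. -/
noncomputable def normA (f : ℂ → ℂ) : ℝ := ∑' j, ‖coef f j‖

/-- The functional `J(f)`. -/
noncomputable def J (f : ℂ → ℂ) : ℝ :=
  1 / (2 * Real.pi) * (∫ t in (-Real.pi)..Real.pi, Real.log ‖bv f t‖) - Real.log (normA f)

/-- `f` has concentration `d` of degree at most `k`. -/
def Conc (d : ℝ) (k : ℕ) (f : ℂ → ℂ) : Prop :=
  Summable (fun j => ‖coef f j‖) ∧ d * normA f ≤ ∑ j ∈ Finset.range (k + 1), ‖coef f j‖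

/-- The class of functions over which the infimum is taken. -/
def cls (d : ℝ) (k : ℕ) : Set (ℂ → ℂ) :=
  {f | IsHinf f ∧ (∃ z ∈ ball (0 : ℂ) 1, f z ≠ 0) ∧ Conc d k f}

/-- The constant `C_{d,k}`, an infimum in the extended reals. -/
noncomputable def Cinf (d : ℝ) (k : ℕ) : EReal := ⨅ f ∈ cls d k, (J f : EReal)

/-- `n = n(d,k)`. -/
def IsN (d : ℝ) (k n : ℕ) : Prop :=
  0 < n ∧ (∑ j ∈ Finset.range (k + 1), (n.choose j : ℝ)) / 2 ^ n ≤ d ∧
    d < (∑ j ∈ Finset.range (k + 1), ((n - 1).choose j : ℝ)) / 2 ^ (n - 1)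

/-- `ρ = ρ(d,k)`. -/
noncomputable def rho (d : ℝ) (k n : ℕ) : ℝ :=
  ((n - 1).choose k : ℝ) /
    ((∑ j ∈ Finset.range (k + 1), ((n - 1).choose j : ℝ)) - 2 ^ (n - 1) * d) - 1

/-- the conjectured value -/
noncomputable def rtvValue (d : ℝ) (k n : ℕ) : ℝ :=
  Real.log (rho d k n / (2 ^ (n - 1) * (rho d k n + 1)))

theorem hasSum_coef {f : ℂ → ℂ} (hf : IsHinf f) {z : ℂ} (hz : z ∈ ball (0 : ℂ) 1) :
    HasSum (fun j => coef f j * z ^ j) (f z) := by
  have h := Complex.hasSum_taylorSeries_on_ball (c := 0) (r := 1) (f := f) (by simpa using hf.1)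
    (z := z) (by simpa using hz)
  refine h.congr_fun ?_
  intro j
  simp only [coef, sub_zero, smul_eq_mul]
  ring

theorem bv_eq {f : ℂ → ℂ} (hf : IsHinf f) (hs : Summable fun j => ‖coef f j‖) (t : ℝ) :
    bv f t = ∑' j, coef f j * Complex.exp (t * Complex.I) ^ j := by
  have he : ‖Complex.exp (t * Complex.I)‖ = 1 := Complex.norm_exp_ofReal_mul_I t
  refine Tendsto.limUnder_eq ?_
  have h1 : ∀ᶠ r : ℝ in 𝓝[<] (1 : ℝ), f ((r : ℂ) * Complex.exp (t * Complex.I))
      = ∑' j, coef f j * ((r : ℂ) * Complex.exp (t * Complex.I)) ^ j := by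
    have h0 : ∀ᶠ r : ℝ in 𝓝[<] (1 : ℝ), 0 < r :=
      eventually_nhdsWithin_of_eventually_nhds (lt_mem_nhds one_pos)
    filter_upwards [h0, self_mem_nhdsWithin] with r hr hr1
    refine (HasSum.tsum_eq (hasSum_coef hf ?_)).symm
    rw [mem_ball_zero_iff, norm_mul, he, mul_one, Complex.norm_real, Real.norm_eq_abs,
      abs_of_pos hr]
    exact hr1
  refine Tendsto.congr' (EventuallyEq.symm h1) ?_
  refine tendsto_tsum_of_dominated_convergence (bound := fun j => ‖coef f j‖) hs ?_ ?_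
  · intro j
    have h2 : Tendsto (fun r : ℝ => (r : ℂ)) (𝓝[<] (1 : ℝ)) (𝓝 ((1 : ℝ) : ℂ)) :=
      (Complex.continuous_ofReal.tendsto 1).mono_left nhdsWithin_le_nhds
    have h3 := (((h2.mul_const (Complex.exp (t * Complex.I))).pow j).const_mul (coef f j))
    simpa using h3
  · have h0 : ∀ᶠ r : ℝ in 𝓝[<] (1 : ℝ), 0 < r :=
      eventually_nhdsWithin_of_eventually_nhds (lt_mem_nhds one_pos)
    filter_upwards [h0, self_mem_nhdsWithin] with r hr hr1 j
    rw [norm_mul, norm_pow, norm_mul, he, mul_one, Complex.norm_real, Real.norm_eq_abs,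
      abs_of_pos hr]
    exact mul_le_of_le_one_right (norm_nonneg _) (pow_le_one₀ hr.le (le_of_lt hr1))

theorem exists_coef_ne {f : ℂ → ℂ} (hf : IsHinf f) (h0 : ∃ z ∈ ball (0 : ℂ) 1, f z ≠ 0) :
    ∃ j, coef f j ≠ 0 := by
  by_contra hcon
  push Not at hcon
  obtain ⟨z, hz, hne⟩ := h0
  refine hne ((hasSum_coef hf hz).unique ?_)
  simp [hcon]

/-! ### polynomials -/

theorem iter_deriv_poly (p : Polynomial ℂ) (j : ℕ) :
    deriv^[j] (fun z => p.eval z) = fun z => (Polynomial.derivative^[j] p).eval z := by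
  induction j with
  | zero => rfl
  | succ j ih =>
    rw [Function.iterate_succ_apply', ih, Function.iterate_succ_apply']
    funext z
    exact Polynomial.deriv _

theorem coef_poly (p : Polynomial ℂ) (j : ℕ) : coef (fun z => p.eval z) j = p.coeff j := by
  unfold coef
  rw [iteratedDeriv_eq_iterate, iter_deriv_poly]
  simp only
  rw [← Polynomial.coeff_zero_eq_eval_zero, Polynomial.coeff_iterate_derivative]
  simp only [zero_add, Nat.descFactorial_self, nsmul_eq_mul]
  have : (j.factorial : ℂ) ≠ 0 := by exact_mod_cast j.factorial_ne_zero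
  field_simp

theorem isHinf_poly (p : Polynomial ℂ) : IsHinf (fun z => p.eval z) := by
  refine ⟨p.differentiable.differentiableOn, ?_⟩
  obtain ⟨K, hK⟩ := (isCompact_closedBall (0 : ℂ) 1).exists_bound_of_continuousOn
    (f := fun z => p.eval z) p.continuous.continuousOn
  exact ⟨K, fun z hz => hK z (ball_subset_closedBall hz)⟩

theorem summable_poly (p : Polynomial ℂ) : Summable fun j => ‖coef (fun z => p.eval z) j‖ := by
  refine summable_of_ne_finset_zero (s := p.support) fun j hj => ?_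
  rw [coef_poly, Polynomial.notMem_support_iff.1 hj, norm_zero]

theorem normA_poly (p : Polynomial ℂ) {s : Finset ℕ} (hs : p.support ⊆ s) :
    normA (fun z => p.eval z) = ∑ j ∈ s, ‖p.coeff j‖ := by
  unfold normA
  rw [tsum_eq_sum (s := s) fun j hj => ?_]
  · exact Finset.sum_congr rfl fun j _ => by rw [coef_poly]
  · rw [coef_poly, Polynomial.notMem_support_iff.1 (fun h => hj (hs h)), norm_zero]

theorem bv_poly (p : Polynomial ℂ) (t : ℝ) :
    bv (fun z => p.eval z) t = p.eval (Complex.exp (t * Complex.I)) := by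
  refine Tendsto.limUnder_eq ?_
  have h : Continuous fun r : ℝ => p.eval ((r : ℂ) * Complex.exp (t * Complex.I)) :=
    p.continuous.comp (by fun_prop)
  have h2 := (h.tendsto 1).mono_left (nhdsWithin_le_nhds (s := Set.Iio (1 : ℝ)))
  simpa using h2

theorem integral_log_poly (p : Polynomial ℂ) :
    1 / (2 * Real.pi) * (∫ t in (-Real.pi)..Real.pi,
      Real.log ‖p.eval (Complex.exp (t * Complex.I))‖) = p.logMahlerMeasure := by
  rw [Polynomial.logMahlerMeasure_def, Real.circleAverage_def, one_div, smul_eq_mul]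
  congr 1
  have hper : Function.Periodic
      (fun t : ℝ => Real.log ‖p.eval (Complex.exp (t * Complex.I))‖) (2 * Real.pi) := by
    intro t
    simp only
    congr 3
    push_cast
    rw [add_mul, Complex.exp_add, Complex.exp_two_pi_mul_I, mul_one]
  have h := hper.intervalIntegral_add_eq (-Real.pi) 0
  have e1 : -Real.pi + 2 * Real.pi = Real.pi := by ring
  rw [e1, zero_add] at h
  rw [h]
  refine intervalIntegral.integral_congr fun t _ => ?_
  simp [circleMap]

theorem J_poly (p : Polynomial ℂ) :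
    J (fun z => p.eval z) = p.logMahlerMeasure - Real.log (normA fun z => p.eval z) := by
  unfold J
  rw [← integral_log_poly]
  simp only [bv_poly]

end Pool.Agent.RTV
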