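import Pool.Agent.Lib.RTV.Push

/-!
# Functions of the class with `J` below the conjectured value
-/

namespace Pool.Agent.RTV

open Filter Topology Polynomial Metric

theorem norm_add_one_le {r : ℝ} (hr : 1 ≤ r) {z : ℂ} (hz : ‖z‖ ≤ 1) :
    ‖z + 1‖ ≤ ‖z + (r : ℂ)‖ := by
  have h1 : ‖z + 1‖ ^ 2 ≤ ‖z + (r : ℂ)‖ ^ 2 := by
    rw [← Complex.normSq_eq_norm_sq, ← Complex.normSq_eq_norm_sq, Complex.normSq_apply,
      Complex.normSq_apply]
    simp only [Complex.add_re, Complex.one_re, Complex.add_im, Complex.one_im, Complex.ofReal_re,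
      Complex.ofReal_im]
    have h2 : -1 ≤ z.re := by
      have := (abs_le.1 ((Complex.abs_re_le_norm z).trans hz)).1
      exact this
    nlinarith
  exact (sq_le_sq₀ (norm_nonneg _) (norm_nonneg _)).1 h1

theorem exists_below {d : ℝ} {k n : ℕ} (hd : 0 < d) (hd1 : d < 1) (h : IsN d k n)
    (hk : 1 ≤ k) (hn : 3 ≤ n) : ∃ f ∈ cls d k, J f < rtvValue d k n := by
  obtain ⟨hkn, _, hr1, _⟩ := isN_facts hd1 h
  obtain ⟨r, hr⟩ : ∃ r, r = rho d k n := ⟨_, rfl⟩
  have hcj := rtvValue_eq hd1 h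
  have htc := tst_conc hd1 h
  rw [← hr] at hr1 hcj htc
  have hr0 : 0 < r := by linarith
  have hn0 : 0 < n := by omega
  obtain ⟨A, hA⟩ : ∃ A : ℝ, A = 2 ^ (n - 1) * (r + 1) := ⟨_, rfl⟩
  rw [← hA] at hcj htc
  have hA0 : 0 < A := by rw [hA]; positivity
  obtain ⟨G, ⟨H, hH⟩, hG0, hGl, hGS⟩ := exists_G hk hkn hn
  obtain ⟨K, hK⟩ := (isCompact_closedBall (0 : ℂ) 1).exists_bound_of_continuousOn
    (f := fun z => ev H z) (by unfold ev; exact (Polynomial.continuous _).continuousOn)
  -- choice of ε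
  have e1 : ∀ᶠ ε : ℝ in 𝓝[>] 0, ∀ j ∈ Finset.range (n + 1),
      0 < (tst n r).coeff j + ε * G.coeff j := by
    rw [Filter.eventually_all_finset]
    intro j hj
    have hp := tst_coeff_pos hn0 hr0 (Nat.lt_succ_iff.1 (Finset.mem_range.1 hj))
    have hcont : Continuous fun ε : ℝ => (tst n r).coeff j + ε * G.coeff j := by fun_prop
    have ht := (hcont.tendsto 0).mono_left (nhdsWithin_le_nhds (s := Set.Ioi (0 : ℝ)))
    simp only [zero_mul, add_zero] at ht
    exact ht.eventually_const_lt hp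
  have e2 : ∀ᶠ ε : ℝ in 𝓝[>] 0, ε * K < 1 := by
    have hcont : Continuous fun ε : ℝ => ε * K := by fun_prop
    have ht := (hcont.tendsto 0).mono_left (nhdsWithin_le_nhds (s := Set.Ioi (0 : ℝ)))
    simp only [zero_mul] at ht
    exact ht.eventually_lt_const one_pos
  have e3 : ∀ᶠ ε : ℝ in 𝓝[>] 0, ε * (ell k G - 2 * d * SS n G) < d * A := by
    have hcont : Continuous fun ε : ℝ => ε * (ell k G - 2 * d * SS n G) := by fun_prop
    have ht := (hcont.tendsto 0).mono_left (nhdsWithin_le_nhds (s := Set.Ioi (0 : ℝ)))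
    simp only [zero_mul] at ht
    exact ht.eventually_lt_const (by positivity)
  obtain ⟨ε, hε1, hε2, hε3, hε0⟩ := (e1.and (e2.and (e3.and self_mem_nhdsWithin))).exists
  have hε0 : 0 < ε := hε0
  -- the polynomial f0
  obtain ⟨p, hp⟩ : ∃ p : ℝ[X], p = tst n r + C ε * G := ⟨_, rfl⟩
  have hpc : ∀ j, p.coeff j = (tst n r).coeff j + ε * G.coeff j := by
    intro j
    rw [hp, coeff_add, coeff_C_mul]
  have hp0 : p.coeff 0 = r := by rw [hpc, hG0, tst_coeff_zero]; ring
  have habs : ∀ j ∈ Finset.range (k + 1), |p.coeff j| = p.coeff j := by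
    intro j hj
    rw [hpc]
    refine abs_of_pos (hε1 j ?_)
    rw [Finset.mem_range] at hj ⊢
    omega
  have hell : ∑ j ∈ Finset.range (k + 1), |p.coeff j| = d * A + ε * ell k G := by
    rw [Finset.sum_congr rfl habs]
    have : ∑ j ∈ Finset.range (k + 1), p.coeff j
        = ∑ j ∈ Finset.range (k + 1), (tst n r).coeff j + ε * ell k G := by
      unfold ell
      rw [Finset.mul_sum, ← Finset.sum_add_distrib]
      exact Finset.sum_congr rfl fun j _ => hpc j
    rw [this, htc]
  obtain ⟨D, hD⟩ : ∃ D : ℕ, n < D ∧ p.natDegree < D ∧ G.natDegree < D :=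
    ⟨n + p.natDegree + G.natDegree + 1, by omega, by omega, by omega⟩
  have hsupp : ∀ q : ℝ[X], q.natDegree < D → q.support ⊆ Finset.range D := fun q hq =>
    supp_subset_range hq
  have hNp : ∑ j ∈ Finset.range D, |p.coeff j| = A + ε * SS n G := by
    rw [SS_eq n (hsupp G hD.2.2), Finset.mul_sum]
    have hAt : A = ∑ j ∈ Finset.range D, |(tst n r).coeff j| := by
      rw [hA, ← tst_normA hn0 hr0]
      refine normA_ev _ ((tst_support hn0 r).trans (Finset.range_subset_range.2 (by omega)))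
    rw [hAt, ← Finset.sum_add_distrib]
    refine Finset.sum_congr rfl fun j _ => ?_
    rw [hpc]
    rcases le_or_gt j n with hj | hj
    · rw [phi, if_pos hj, abs_of_pos (hε1 j (Finset.mem_range.2 (by omega))),
        abs_of_pos (tst_coeff_pos hn0 hr0 hj)]
    · rw [phi, if_neg (by omega), tst_coeff_gt hn0 r hj, zero_add, abs_zero, zero_add, abs_mul,
        abs_of_pos hε0]
  have hNpos : 0 < A + ε * SS n G := by
    rw [← hNp]
    have h0m : 0 ∈ Finset.range D := Finset.mem_range.2 (by omega)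
    have := Finset.single_le_sum (f := fun j => |p.coeff j|) (fun j _ => abs_nonneg _) h0m
    simp only [hp0, abs_of_pos hr0] at this
    linarith
  -- roots of f0
  have hroot : ∀ z : ℂ, ‖z‖ < 1 → ev p z ≠ 0 := by
    intro z hz h0
    have ez : ev p z = (z + 1) ^ (n - 1) * ((z + (r : ℂ)) + (ε : ℂ) * ((z + 1) * ev H z)) := by
      rw [hp, hH]
      unfold ev tst
      have hnn : (z + 1) ^ n = (z + 1) ^ (n - 1) * (z + 1) := by
        rw [← pow_succ, Nat.sub_add_cancel hn0]
      simp only [Polynomial.map_mul, Polynomial.map_pow, Polynomial.map_add, map_X, map_C,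
        Polynomial.map_one, eval_mul, eval_pow, eval_add, eval_X, eval_C, eval_one,
        Complex.coe_algebraMap, hnn]
      ring
    rw [ez] at h0
    have hz1 : z + 1 ≠ 0 := by
      intro h1
      have : z = -1 := by linear_combination h1
      rw [this, norm_neg, norm_one] at hz
      exact lt_irrefl _ hz
    rcases mul_eq_zero.1 h0 with h1 | h1
    · exact pow_ne_zero _ hz1 h1
    · have h2 : z + (r : ℂ) = -((ε : ℂ) * ((z + 1) * ev H z)) := by linear_combination h1
      have h3 : ‖z + (r : ℂ)‖ = ε * (‖z + 1‖ * ‖ev H z‖) := by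
        rw [h2, norm_neg, norm_mul, norm_mul, Complex.norm_real, Real.norm_eq_abs,
          abs_of_pos hε0]
      have h4 := norm_add_one_le hr1 hz.le
      have h5 := hK z (mem_closedBall_zero_iff.2 hz.le)
      have h6 : 0 < ‖z + 1‖ := norm_pos_iff.2 hz1
      have h7 : ε * (‖z + 1‖ * ‖ev H z‖) ≤ ε * K * ‖z + 1‖ := by
        have := mul_le_mul_of_nonneg_left h5 (mul_nonneg hε0.le h6.le)
        nlinarith
      have h8 : ε * K * ‖z + 1‖ < ‖z + 1‖ := by
        have := mul_lt_mul_of_pos_right hε2 h6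
        linarith
      linarith
  -- τ
  obtain ⟨τ, hτ⟩ : ∃ τ : ℝ, τ = (d * A + ε * ell k G) / (d * (A + ε * SS n G)) - 1 := ⟨_, rfl⟩
  have hdN : 0 < d * (A + ε * SS n G) := mul_pos hd hNpos
  have hτ0 : 0 ≤ τ := by
    rw [hτ, sub_nonneg, one_le_div hdN]
    have h1 : 0 < ε * ell k G := mul_pos hε0 hGl
    have h2 : d * (ε * SS n G) < 0 :=
      mul_neg_of_pos_of_neg hd (mul_neg_of_pos_of_neg hε0 hGS)
    nlinarith
  have hτ1 : τ ≤ 1 := by
    rw [hτ, sub_le_iff_le_add, div_le_iff₀ hdN]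
    nlinarith
  have hτe : (1 + τ) * (A + ε * SS n G) = (d * A + ε * ell k G) / d := by
    rw [hτ]
    field_simp
    ring
  -- the function
  obtain ⟨q, hq⟩ : ∃ q : ℝ[X], q = p + C τ * (p * X ^ D) := ⟨_, rfl⟩
  have hqc1 : ∀ j, j < D → q.coeff j = p.coeff j := by
    intro j hj
    rw [hq, coeff_add, coeff_C_mul, coeff_mul_X_pow', if_neg (by omega), mul_zero, add_zero]
  have hqc2 : ∀ j, q.coeff (D + j) = τ * p.coeff j := by
    intro j
    rw [hq, coeff_add, coeff_C_mul, coeff_eq_zero_of_natDegree_lt (by omega), zero_add,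
      add_comm D j, coeff_mul_X_pow]
  have hqs : q.support ⊆ Finset.range (D + D) := by
    intro j hj
    rw [Finset.mem_range]
    by_contra hcon
    rw [mem_support_iff] at hj
    apply hj
    obtain ⟨i, rfl⟩ : ∃ i, j = D + i := ⟨j - D, by omega⟩
    rw [hqc2, coeff_eq_zero_of_natDegree_lt (by omega), mul_zero]
  have hqN : normA (ev q) = (d * A + ε * ell k G) / d := by
    rw [normA_ev q hqs, Finset.sum_range_add, ← hτe, add_mul, one_mul, ← hNp, Finset.mul_sum]
    congr 1
    · exact Finset.sum_congr rfl fun j hj => by rw [hqc1 j (Finset.mem_range.1 hj)]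
    · refine Finset.sum_congr rfl fun j _ => ?_
      rw [hqc2, abs_mul, abs_of_nonneg hτ0]
  have hqroot : ∀ z : ℂ, ‖z‖ < 1 → ev q z ≠ 0 := by
    intro z hz h0
    have ez : ev q z = ev p z * (1 + (τ : ℂ) * z ^ D) := by
      rw [hq]
      unfold ev
      simp only [Polynomial.map_mul, Polynomial.map_pow, Polynomial.map_add, map_X, map_C,
        eval_mul, eval_pow, eval_add, eval_X, eval_C, Complex.coe_algebraMap]
      ring
    rw [ez] at h0
    rcases mul_eq_zero.1 h0 with h1 | h1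
    · exact hroot z hz h1
    · have h2 : (1 : ℂ) = -((τ : ℂ) * z ^ D) := by linear_combination h1
      have h3 : (1 : ℝ) = τ * ‖z‖ ^ D := by
        have := congrArg norm h2
        rw [norm_one, norm_neg, norm_mul, norm_pow, Complex.norm_real, Real.norm_eq_abs,
          abs_of_nonneg hτ0] at this
        exact this
      have h4 : ‖z‖ ^ D < 1 := pow_lt_one₀ (norm_nonneg _) hz (by omega)
      have h5 : 0 ≤ ‖z‖ ^ D := by positivity
      nlinarith
  have hq0 : q.coeff 0 = r := by rw [hqc1 0 (by omega), hp0]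
  have hqell : ∑ j ∈ Finset.range (k + 1), |q.coeff j| = d * A + ε * ell k G := by
    rw [← hell]
    refine Finset.sum_congr rfl fun j hj => ?_
    rw [hqc1 j (by have := Finset.mem_range.1 hj; omega)]
  refine ⟨ev q, ev_mem_cls hqroot ?_, ?_⟩
  · rw [hqN, hqell, mul_div_cancel₀ _ hd.ne']
  · rw [J_ev hqroot, hq0, abs_of_pos hr0, hcj, hqN]
    refine sub_lt_sub_left (Real.log_lt_log hA0 ?_) _
    rw [lt_div_iff₀ hd]
    have : 0 < ε * ell k G := mul_pos hε0 hGl
    linarith

end Pool.Agent.RTV
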