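import Pool.Agent.Lib.RTV.Two

/-!
# Lower bounds for `J` on the class for `k = 0` and `k = 1`
-/

namespace Pool.Agent.RTV

open Filter Topology Polynomial Metric

theorem normA_pos {f : ℂ → ℂ} (hf : IsHinf f) (h0 : ∃ z ∈ ball (0 : ℂ) 1, f z ≠ 0)
    (hs : Summable fun j => ‖coef f j‖) : 0 < normA f := by
  obtain ⟨j, hj⟩ := exists_coef_ne hf h0
  exact hs.tsum_pos (fun i => norm_nonneg _) j (norm_pos_iff.2 hj)

theorem J_ge_of {f : ℂ → ℂ} (hf : IsHinf f) (hs : Summable fun j => ‖coef f j‖)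
    (hA : 0 < normA f) {c : ℝ} (hc : 0 < c)
    (h : ∀ᶠ N in atTop, c * normA f ≤ (psum (coef f) N).mahlerMeasure) :
    Real.log c ≤ J f := by
  have h1 := jensen_limit (coef f) hs (mul_pos hc hA) h
  unfold J
  have h2 : (∫ t in (-Real.pi)..Real.pi, Real.log ‖bv f t‖)
      = ∫ t in (-Real.pi)..Real.pi,
        Real.log ‖∑' j, coef f j * Complex.exp (t * Complex.I) ^ j‖ := by
    simp only [bv_eq hf hs]
  rw [h2]
  rw [Real.log_mul hc.ne' hA.ne'] at h1
  linarith

theorem J_ge_zero {d : ℝ} (hd : 0 < d) {f : ℂ → ℂ} (hf : f ∈ cls d 0) : Real.log d ≤ J f := by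
  obtain ⟨h1, h2, h3, h4⟩ := hf
  refine J_ge_of h1 h3 (normA_pos h1 h2 h3) hd ?_
  filter_upwards [eventually_ge_atTop 1] with N hN
  refine (h4.trans ?_).trans (coeff_zero_le _)
  rw [psum_coeff, if_pos (by omega)]
  simp

theorem J_ge_one {d : ℝ} (hd : 1 / 2 < d) {f : ℂ → ℂ} (hf : f ∈ cls d 1) :
    Real.log (d - 1 / 2) ≤ J f := by
  obtain ⟨h1, h2, h3, h4⟩ := hf
  refine J_ge_of h1 h3 (normA_pos h1 h2 h3) (by linarith) ?_
  filter_upwards [eventually_ge_atTop 2] with N hN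
  have h5 := two_bound (p := psum (coef f) N) (m := (psum (coef f) N).natDegree + 1)
    (Nat.lt_succ_self _)
  rw [psum_coeff, psum_coeff, if_pos (by omega), if_pos (by omega)] at h5
  have h6 : ∑ j ∈ Finset.range ((psum (coef f) N).natDegree + 1),
      ‖(psum (coef f) N).coeff (j + 2)‖ ≤ ∑' j, ‖coef f (j + 2)‖ := by
    refine le_trans (Finset.sum_le_sum fun j _ => ?_)
      (((summable_nat_add_iff 2).2 h3).sum_le_tsum _ fun j _ => norm_nonneg _)
    rw [psum_coeff]
    split_ifs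
    · exact le_rfl
    · rw [norm_zero]
      exact norm_nonneg _
  have h7 := h3.sum_add_tsum_nat_add 2
  have h8 : normA f = ∑' j, ‖coef f j‖ := rfl
  rw [Finset.sum_range_succ, Finset.sum_range_one] at h7
  rw [Finset.sum_range_succ, Finset.sum_range_one] at h4
  rw [← h8] at h7
  nlinarith

end Pool.Agent.RTV
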