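import Pool.Agent.Lib.RTV.Basic

/-!
# Lower bounds pass from partial sums to absolutely convergent power series
-/

namespace Pool.Agent.RTV

open Filter Topology MeasureTheory Polynomial Real

theorem logMahler_le {P : ℂ[X]} (hP : P ≠ 0) {G : ℝ → ℝ} (hG : Continuous G) (h0 : ∀ t, 0 < G t)
    (h : ∀ t, ‖P.eval (circleMap 0 1 t)‖ ≤ G t) :
    P.logMahlerMeasure ≤ (2 * π)⁻¹ * ∫ t in (0 : ℝ)..(2 * π), Real.log (G t) := by
  rw [logMahlerMeasure_def, circleAverage_def, smul_eq_mul]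
  gcongr
  apply intervalIntegral.integral_mono_ae_restrict (by positivity)
    P.intervalIntegrable_mahlerMeasure
    ((hG.log fun t => (h0 t).ne').intervalIntegrable _ _)
  rw [EventuallyLE, eventually_iff_exists_mem]
  refine ⟨{x : ℝ | eval (circleMap 0 1 x) P ≠ 0}, ?_, ?_⟩
  · rw [mem_ae_iff, Set.compl_def, Measure.restrict_apply' (by simp)]
    apply (Set.Finite.of_sdiff _ <| Set.finite_singleton (2 * π)).measure_zero
    simp only [ne_eq, Set.mem_ofPred_eq, Decidable.not_not, Set.inter_sdiff_assoc,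
      Set.Icc_sdiff_right]
    rw [Set.ofPred_inter_eq_sep]
    apply Set.Finite.of_finite_image (f := circleMap 0 1)
      ((Multiset.finite_toSet P.roots).subset _)
      <| fun _ h _ k l ↦ injOn_circleMap_of_abs_sub_le' one_ne_zero (by linarith) h.1 k.1 l
    simp [hP]
  · intro x hx
    exact Real.log_le_log (norm_pos_iff.2 hx) (h x)

theorem limit_log {g : ℝ → ℂ} (hg : Continuous g) {A : ℝ} (hA : ∀ t, ‖g t‖ ≤ A) {c : ℝ}
    (h : ∀ δ : ℝ, 0 < δ → δ ≤ 1 →
      c ≤ (2 * π)⁻¹ * ∫ t in (0 : ℝ)..(2 * π), Real.log (‖g t‖ + δ)) :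
    c ≤ (2 * π)⁻¹ * ∫ t in (0 : ℝ)..(2 * π), Real.log ‖g t‖ := by
  have hpi : (0 : ℝ) < 2 * π := by positivity
  have hA0 : 0 ≤ A := (norm_nonneg (g 0)).trans (hA 0)
  obtain ⟨B, hB⟩ : ∃ B, B = Real.log (A + 1) := ⟨_, rfl⟩
  have hB0 : 0 ≤ B := by rw [hB]; exact Real.log_nonneg (by linarith)
  have hδ : ∀ i : ℕ, (0 : ℝ) < 1 / ((i : ℝ) + 1) ∧ 1 / ((i : ℝ) + 1) ≤ 1 := by
    intro i
    refine ⟨by positivity, ?_⟩
    rw [div_le_one (by positivity)]
    linarith [Nat.cast_nonneg (α := ℝ) i]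
  have hpos : ∀ (i : ℕ) (t : ℝ), 0 < ‖g t‖ + 1 / ((i : ℝ) + 1) := fun i t => by
    have := (hδ i).1
    positivity
  obtain ⟨ψ, hψ⟩ : ∃ ψ : ℕ → ℝ → ℝ,
      ψ = fun (i : ℕ) (t : ℝ) => B - Real.log (‖g t‖ + 1 / ((i : ℝ) + 1)) :=
    ⟨_, rfl⟩
  have hψ0 : ∀ i t, 0 ≤ ψ i t := by
    intro i t
    rw [hψ, hB]
    simp only
    have := Real.log_le_log (hpos i t) (add_le_add (hA t) (hδ i).2)
    linarith
  have hψc : ∀ i, Continuous (ψ i) := by
    intro i
    rw [hψ]
    exact continuous_const.sub ((hg.norm.add continuous_const).log fun t => (hpos i t).ne')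
  have hK : ∀ i, ∫ t in (0 : ℝ)..(2 * π), ψ i t ≤ 2 * π * (B - c) := by
    intro i
    have h1 := h _ (hδ i).1 (hδ i).2
    have h2 : ∫ t in (0 : ℝ)..(2 * π), ψ i t
        = 2 * π * B - ∫ t in (0 : ℝ)..(2 * π), Real.log (‖g t‖ + 1 / ((i : ℝ) + 1)) := by
      rw [hψ]
      simp only
      rw [intervalIntegral.integral_sub]
      · simp
      · simp
      · exact ((hg.norm.add continuous_const).log fun t => (hpos i t).ne').intervalIntegrable _ _
    rw [h2]
    have h3 : 2 * π * c ≤ ∫ t in (0 : ℝ)..(2 * π), Real.log (‖g t‖ + 1 / ((i : ℝ) + 1)) := by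
      have := mul_le_mul_of_nonneg_left h1 hpi.le
      rwa [← mul_assoc, mul_inv_cancel₀ hpi.ne', one_mul] at this
    nlinarith
  have hcB : c ≤ B := by
    have h0 : 0 ≤ ∫ t in (0 : ℝ)..(2 * π), ψ 0 t :=
      intervalIntegral.integral_nonneg hpi.le fun t _ => hψ0 0 t
    have h1 := h0.trans (hK 0)
    nlinarith
  obtain ⟨μ, hμ⟩ : ∃ μ : Measure ℝ, μ = volume.restrict (Set.Ioc 0 (2 * π)) := ⟨_, rfl⟩
  have hint : ∀ i, ∫ t in (0 : ℝ)..(2 * π), ψ i t = ∫ t, ψ i t ∂μ := by
    intro i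
    rw [intervalIntegral.integral_of_le hpi.le, hμ]
  have hψi : ∀ i, Integrable (ψ i) μ := by
    intro i
    have := (hψc i).intervalIntegrable (μ := volume) 0 (2 * π)
    rw [intervalIntegrable_iff_integrableOn_Ioc_of_le hpi.le] at this
    rw [hμ]
    exact this
  have hl : ∀ i, ∫⁻ t, ENNReal.ofReal (ψ i t) ∂μ ≤ ENNReal.ofReal (2 * π * (B - c)) := by
    intro i
    rw [← ofReal_integral_eq_lintegral_ofReal (hψi i) (Eventually.of_forall (hψ0 i))]
    exact ENNReal.ofReal_le_ofReal ((hint i) ▸ hK i)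
  have hfat : ∫⁻ t, liminf (fun i => ENNReal.ofReal (ψ i t)) atTop ∂μ
      ≤ ENNReal.ofReal (2 * π * (B - c)) := by
    refine (lintegral_liminf_le fun i => ?_).trans ?_
    · exact (hψc i).measurable.ennreal_ofReal
    · exact liminf_le_of_frequently_le' (Frequently.of_forall hl)
  have hpt : ∀ t, ENNReal.ofReal (B - Real.log ‖g t‖)
      ≤ liminf (fun i => ENNReal.ofReal (ψ i t)) atTop := by
    intro t
    by_cases hgt : g t = 0
    · refine le_liminf_of_le (by isBoundedDefault) (Eventually.of_forall fun i => ?_)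
      refine ENNReal.ofReal_le_ofReal ?_
      simp only [hψ, hgt, norm_zero, Real.log_zero, zero_add, sub_zero]
      have := Real.log_nonpos (hδ i).1.le (hδ i).2
      linarith
    · have ht : Tendsto (fun i => ENNReal.ofReal (ψ i t)) atTop
          (𝓝 (ENNReal.ofReal (B - Real.log ‖g t‖))) := by
        refine ENNReal.tendsto_ofReal ?_
        rw [hψ]
        refine tendsto_const_nhds.sub ?_
        have h1 : Tendsto (fun i : ℕ => ‖g t‖ + 1 / ((i : ℝ) + 1)) atTop (𝓝 (‖g t‖ + 0)) :=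
          tendsto_const_nhds.add tendsto_one_div_add_atTop_nhds_zero_nat
        rw [add_zero] at h1
        exact h1.log (norm_ne_zero_iff.2 hgt)
      rw [ht.liminf_eq]
  have hfin := (lintegral_mono hpt).trans hfat
  have hnn : ∀ t, 0 ≤ B - Real.log ‖g t‖ := by
    intro t
    by_cases hgt : g t = 0
    · rw [hgt]
      simpa using hB0
    · have := Real.log_le_log (norm_pos_iff.2 hgt) ((hA t).trans (by linarith : A ≤ A + 1))
      rw [← hB] at this
      linarith
  have hmeas : Measurable fun t => B - Real.log ‖g t‖ :=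
    measurable_const.sub (Real.measurable_log.comp hg.norm.measurable)
  have hI : Integrable (fun t => B - Real.log ‖g t‖) μ := by
    refine ⟨hmeas.aestronglyMeasurable, ?_⟩
    rw [hasFiniteIntegral_iff_ofReal (Eventually.of_forall hnn)]
    exact hfin.trans_lt ENNReal.ofReal_lt_top
  have hIle : ∫ t, (B - Real.log ‖g t‖) ∂μ ≤ 2 * π * (B - c) := by
    rw [integral_eq_lintegral_of_nonneg_ae (Eventually.of_forall hnn) hmeas.aestronglyMeasurable]
    refine (ENNReal.toReal_mono ENNReal.ofReal_ne_top hfin).trans ?_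
    rw [ENNReal.toReal_ofReal (by nlinarith)]
  have hfm : IsFiniteMeasure μ := by
    rw [hμ]
    exact ⟨by simp [ENNReal.mul_lt_top]⟩
  have hIl : Integrable (fun t => Real.log ‖g t‖) μ := by
    have := (integrable_const B).sub hI
    refine this.congr (Eventually.of_forall fun t => ?_)
    simp
  have hEq : ∫ t, (B - Real.log ‖g t‖) ∂μ = 2 * π * B - ∫ t, Real.log ‖g t‖ ∂μ := by
    rw [integral_sub (integrable_const B) hIl, hμ]
    simp [hpi.le]
  rw [intervalIntegral.integral_of_le hpi.le, ← hμ]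
  have h5 : 2 * π * c ≤ ∫ t, Real.log ‖g t‖ ∂μ := by
    rw [hEq] at hIle
    nlinarith
  rw [inv_mul_eq_div, le_div_iff₀ hpi]
  linarith

/-- the partial sums -/
noncomputable def psum (a : ℕ → ℂ) (N : ℕ) : ℂ[X] := ∑ j ∈ Finset.range N, C (a j) * X ^ j

theorem psum_eval (a : ℕ → ℂ) (N : ℕ) (z : ℂ) :
    (psum a N).eval z = ∑ j ∈ Finset.range N, a j * z ^ j := by
  simp [psum, eval_finsetSum]

theorem psum_coeff (a : ℕ → ℂ) (N j : ℕ) : (psum a N).coeff j = if j < N then a j else 0 := by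
  simp [psum, coeff_C_mul, coeff_X_pow]

theorem jensen_limit (a : ℕ → ℂ) (ha : Summable fun j => ‖a j‖) {L : ℝ} (hL : 0 < L)
    (h : ∀ᶠ N in atTop, L ≤ (psum a N).mahlerMeasure) :
    Real.log L ≤ 1 / (2 * π) *
      ∫ t in (-π)..π, Real.log ‖∑' j, a j * Complex.exp (t * Complex.I) ^ j‖ := by
  obtain ⟨g, hgdef⟩ : ∃ g : ℝ → ℂ, g = fun t : ℝ => ∑' j, a j * Complex.exp (t * Complex.I) ^ j :=
    ⟨_, rfl⟩
  have hb : ∀ (j : ℕ) (t : ℝ), ‖a j * Complex.exp (t * Complex.I) ^ j‖ ≤ ‖a j‖ := by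
    intro j t
    rw [norm_mul, norm_pow, Complex.norm_exp_ofReal_mul_I, one_pow, mul_one]
  have hg : Continuous g := by
    rw [hgdef]
    exact continuous_tsum (fun j => by fun_prop) ha hb
  have hA : ∀ t, ‖g t‖ ≤ ∑' j, ‖a j‖ := by
    intro t
    rw [hgdef]
    exact tsum_of_norm_bounded ha.hasSum fun j => hb j t
  have hper : Function.Periodic (fun t : ℝ => Real.log ‖g t‖) (2 * π) := by
    intro t
    simp only [hgdef]
    congr 2
    refine tsum_congr fun j => ?_
    congr 2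
    push_cast
    rw [add_mul, Complex.exp_add, Complex.exp_two_pi_mul_I, mul_one]
  have e0 := hper.intervalIntegral_add_eq (-π) 0
  have e1 : -π + 2 * π = π := by ring
  rw [e1, zero_add] at e0
  have e2 : (∫ t in (-π)..π, Real.log ‖∑' j, a j * Complex.exp (t * Complex.I) ^ j‖)
      = ∫ t in (-π)..π, Real.log ‖g t‖ := by
    rw [hgdef]
  rw [e2, e0, one_div]
  refine limit_log hg hA fun δ hδ _ => ?_
  have hu := tendstoUniformly_tsum_nat ha (f := fun j (t : ℝ) =>
    a j * Complex.exp (t * Complex.I) ^ j) hb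
  rw [Metric.tendstoUniformly_iff] at hu
  obtain ⟨N, hN1, hN2⟩ := ((hu δ hδ).and h).exists
  have hP : psum a N ≠ 0 := by
    intro h0
    rw [h0, mahlerMeasure_zero] at hN2
    linarith
  have h3 := logMahler_le hP (G := fun t => ‖g t‖ + δ) (hg.norm.add continuous_const)
    (fun t => by positivity) (fun t => ?_)
  · refine le_trans ?_ h3
    rw [logMahlerMeasure_eq_log_MahlerMeasure]
    exact Real.log_le_log hL hN2
  · have h4 := hN1 t
    rw [dist_eq_norm] at h4
    have h5 : (psum a N).eval (circleMap 0 1 t)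
        = ∑ j ∈ Finset.range N, a j * Complex.exp (t * Complex.I) ^ j := by
      rw [psum_eval]
      simp [circleMap]
    rw [h5]
    have h6 : g t = ∑' j, a j * Complex.exp (t * Complex.I) ^ j := by rw [hgdef]
    rw [← h6] at h4
    have h7 := norm_sub_norm_le (∑ j ∈ Finset.range N, a j * Complex.exp (t * Complex.I) ^ j) (g t)
    rw [norm_sub_rev] at h7
    linarith

end Pool.Agent.RTV
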