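import Pool.Agent.Lib.RTV.Test

/-!
# A polynomial divisible by `X (X+1)^n` with negative total and positive initial sum
-/

namespace Pool.Agent.RTV

open Filter Topology Polynomial

/-- `x` for `j ≤ n`, `|x|` for `j > n` -/
noncomputable def phi (n j : ℕ) (x : ℝ) : ℝ := if j ≤ n then x else |x|

/-- `∑_{j ≤ n} p_j + ∑_{j > n} |p_j|` -/
noncomputable def SS (n : ℕ) (p : ℝ[X]) : ℝ := ∑ j ∈ p.support, phi n j (p.coeff j)

/-- the norm `∑ |p_j|` -/
noncomputable def N1 (p : ℝ[X]) : ℝ := ∑ j ∈ p.support, |p.coeff j|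

/-- the initial sum -/
noncomputable def ell (k : ℕ) (p : ℝ[X]) : ℝ := ∑ j ∈ Finset.range (k + 1), p.coeff j

theorem SS_eq (n : ℕ) {p : ℝ[X]} {s : Finset ℕ} (hs : p.support ⊆ s) :
    SS n p = ∑ j ∈ s, phi n j (p.coeff j) := by
  unfold SS
  refine Finset.sum_subset hs fun j _ hj => ?_
  rw [notMem_support_iff.1 hj]
  simp [phi]

theorem N1_eq {p : ℝ[X]} {s : Finset ℕ} (hs : p.support ⊆ s) :
    N1 p = ∑ j ∈ s, |p.coeff j| := by
  unfold N1
  refine Finset.sum_subset hs fun j _ hj => ?_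
  rw [notMem_support_iff.1 hj, abs_zero]

theorem N1_nonneg (p : ℝ[X]) : 0 ≤ N1 p := Finset.sum_nonneg fun _ _ => abs_nonneg _

theorem phi_add_le (n j : ℕ) (x y : ℝ) : phi n j (x + y) ≤ phi n j x + |y| := by
  unfold phi
  split_ifs
  · linarith [le_abs_self y]
  · exact abs_add_le x y

theorem SS_add_le (n : ℕ) (p q : ℝ[X]) : SS n (p + q) ≤ SS n p + N1 q := by
  rw [SS_eq n (p := p + q) (s := p.support ∪ q.support) support_add,
    SS_eq n (p := p) (s := p.support ∪ q.support) Finset.subset_union_left,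
    N1_eq (p := q) (s := p.support ∪ q.support) Finset.subset_union_right,
    ← Finset.sum_add_distrib]
  refine Finset.sum_le_sum fun j _ => ?_
  rw [coeff_add]
  exact phi_add_le n j _ _

theorem N1_add_le (p q : ℝ[X]) : N1 (p + q) ≤ N1 p + N1 q := by
  rw [N1_eq (p := p + q) (s := p.support ∪ q.support) support_add,
    N1_eq (p := p) (s := p.support ∪ q.support) Finset.subset_union_left,
    N1_eq (p := q) (s := p.support ∪ q.support) Finset.subset_union_right,
    ← Finset.sum_add_distrib]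
  refine Finset.sum_le_sum fun j _ => ?_
  rw [coeff_add]
  exact abs_add_le _ _

theorem N1_C_mul (c : ℝ) (p : ℝ[X]) : N1 (C c * p) = |c| * N1 p := by
  have h : (C c * p).support ⊆ p.support := by
    intro j hj
    rw [mem_support_iff] at hj ⊢
    rw [coeff_C_mul] at hj
    exact right_ne_zero_of_mul hj
  rw [N1_eq h, N1, Finset.mul_sum]
  refine Finset.sum_congr rfl fun j _ => ?_
  rw [coeff_C_mul, abs_mul]

theorem N1_mul_X_pow (p : ℝ[X]) (m : ℕ) : N1 (p * X ^ m) = N1 p := by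
  have h : (p * X ^ m).support ⊆ p.support.map (addRightEmbedding m) := by
    intro j hj
    rw [mem_support_iff, coeff_mul_X_pow'] at hj
    split_ifs at hj with hmj
    · rw [Finset.mem_map]
      exact ⟨j - m, mem_support_iff.2 hj, by simp [Nat.sub_add_cancel hmj]⟩
    · exact absurd rfl hj
  rw [N1_eq h, Finset.sum_map, N1]
  refine Finset.sum_congr rfl fun j _ => ?_
  simp only [addRightEmbedding_apply]
  rw [coeff_mul_X_pow]

theorem ell_add (k : ℕ) (p q : ℝ[X]) : ell k (p + q) = ell k p + ell k q := by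
  unfold ell
  rw [← Finset.sum_add_distrib]
  exact Finset.sum_congr rfl fun j _ => coeff_add _ _ _

theorem ell_C_mul (k : ℕ) (c : ℝ) (p : ℝ[X]) : ell k (C c * p) = c * ell k p := by
  unfold ell
  rw [Finset.mul_sum]
  exact Finset.sum_congr rfl fun j _ => coeff_C_mul _

theorem abs_ell_le (k : ℕ) (p : ℝ[X]) : |ell k p| ≤ N1 p := by
  unfold ell
  rw [N1_eq (s := p.support ∪ Finset.range (k + 1)) Finset.subset_union_left]
  refine (Finset.abs_sum_le_sum_abs _ _).trans ?_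
  exact Finset.sum_le_sum_of_subset_of_nonneg Finset.subset_union_right
    fun _ _ _ => abs_nonneg _

/-- the kernel `1 + (1/m) X ∑_{i<m} (-X)^i` -/
noncomputable def TK (m : ℕ) : ℝ[X] :=
  1 + C (1 / (m : ℝ)) * X * ∑ i ∈ Finset.range m, (-X) ^ i

theorem TK_dvd {m : ℕ} (hm : 0 < m) : (X + 1 : ℝ[X]) ∣ TK m := by
  have h1 : (X + 1 : ℝ[X]) = X - C (-1) := by simp
  rw [h1, dvd_iff_isRoot, IsRoot.def]
  unfold TK
  have hm' : (m : ℝ) ≠ 0 := by exact_mod_cast hm.ne'
  simp only [eval_add, eval_one, eval_mul, eval_C, eval_X, eval_finsetSum, eval_pow, eval_neg,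
    neg_neg, one_pow, Finset.sum_const, Finset.card_range, nsmul_eq_mul, mul_one]
  field_simp
  ring

theorem TK_mul (m : ℕ) :
    (X + 1 : ℝ[X]) * TK m = (X + 1) + C (1 / (m : ℝ)) * (X * (1 - (-X) ^ m)) := by
  have h := geom_sum_mul (-X : ℝ[X]) m
  unfold TK
  have h2 : (X + 1 : ℝ[X]) * ∑ i ∈ Finset.range m, (-X) ^ i = 1 - (-X) ^ m := by
    have : (X + 1 : ℝ[X]) * ∑ i ∈ Finset.range m, (-X) ^ i
        = -((∑ i ∈ Finset.range m, (-X) ^ i) * (-X - 1)) := by ring
    rw [this, h]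
    ring
  calc (X + 1 : ℝ[X]) * (1 + C (1 / (m : ℝ)) * X * ∑ i ∈ Finset.range m, (-X) ^ i)
      = (X + 1) + C (1 / (m : ℝ)) * (X * ((X + 1) * ∑ i ∈ Finset.range m, (-X) ^ i)) := by ring
    _ = _ := by rw [h2]

theorem step {n k r : ℕ} (hr : 1 ≤ r) {G : ℝ[X]} (h1 : (X + 1) ^ r ∣ G) (h2 : G.coeff 0 = 0)
    (h3 : 0 < ell k G) (h4 : SS n G < 0) :
    ∃ G' : ℝ[X], (X + 1) ^ (r + 1) ∣ G' ∧ G'.coeff 0 = 0 ∧ 0 < ell k G' ∧ SS n G' < 0 := by
  obtain ⟨Q, hQ⟩ : (X + 1 : ℝ[X]) ∣ G := (dvd_pow_self _ (by omega)).trans h1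
  obtain ⟨m, hm⟩ := exists_nat_gt (2 * N1 Q / min (ell k G) (-SS n G))
  have hmin : 0 < min (ell k G) (-SS n G) := lt_min h3 (by linarith)
  have hmpos : (0 : ℝ) < m :=
    lt_of_le_of_lt (div_nonneg (mul_nonneg zero_le_two (N1_nonneg Q)) hmin.le) hm
  have hm0 : 0 < m := by exact_mod_cast hmpos
  have hE : ∃ E : ℝ[X], G * TK m = G + E ∧ N1 E < min (ell k G) (-SS n G) := by
    refine ⟨C (1 / (m : ℝ)) * (Q * X ^ 1) + C (-(1 / (m : ℝ)) * (-1) ^ m) * (Q * X ^ (m + 1)),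
      ?_, ?_⟩
    · have e : G * TK m = Q * ((X + 1) * TK m) := by rw [hQ]; ring
      rw [e, TK_mul, hQ]
      have e2 : (C (-(1 / (m : ℝ)) * (-1) ^ m) : ℝ[X]) = -(C (1 / (m : ℝ))) * (-1) ^ m := by
        simp
      rw [e2, neg_pow (X : ℝ[X]) m]
      ring
    · refine (N1_add_le _ _).trans_lt ?_
      rw [N1_C_mul, N1_C_mul, N1_mul_X_pow, N1_mul_X_pow, abs_mul, abs_neg, abs_pow, abs_neg,
        abs_one, one_pow, mul_one, abs_of_pos (by positivity)]
      rw [div_lt_iff₀ hmin] at hm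
      have : 1 / (m : ℝ) * N1 Q + 1 / (m : ℝ) * N1 Q = 2 * N1 Q / m := by ring
      rw [this, div_lt_iff₀ hmpos]
      linarith
  obtain ⟨E, hE1, hE2⟩ := hE
  refine ⟨G * TK m, ?_, ?_, ?_, ?_⟩
  · rw [pow_succ]
    exact mul_dvd_mul h1 (TK_dvd hm0)
  · rw [mul_coeff_zero, h2, zero_mul]
  · rw [hE1, ell_add]
    have := (abs_le.1 (abs_ell_le k E)).1
    have h5 := hE2.trans_le (min_le_left _ _)
    linarith
  · rw [hE1]
    have h5 := SS_add_le n G E
    have h6 := hE2.trans_le (min_le_right _ _)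
    linarith

theorem base {n k : ℕ} (hk : 1 ≤ k) (hkn : k < n) (hn : 3 ≤ n) :
    ∃ G : ℝ[X], (X + 1) ^ 1 ∣ G ∧ G.coeff 0 = 0 ∧ 0 < ell k G ∧ SS n G < 0 := by
  obtain ⟨s, hs⟩ : ∃ s, s = max k 2 := ⟨_, rfl⟩
  have hs2 : 2 ≤ s := by omega
  have hsn : s + 1 ≤ n := by omega
  have hc : ∀ j, ((X + 1) * (C 2 * X ^ 1 - C 3 * X ^ s) : ℝ[X]).coeff j
      = 2 * (if j = 2 then 1 else 0) + 2 * (if j = 1 then 1 else 0)
        - 3 * (if j = s + 1 then 1 else 0) - 3 * (if j = s then 1 else 0) := by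
    intro j
    have e : ((X + 1) * (C 2 * X ^ 1 - C 3 * X ^ s) : ℝ[X])
        = C 2 * X ^ 2 + C 2 * X ^ 1 - C 3 * X ^ (s + 1) - C 3 * X ^ s := by ring
    rw [e]
    simp only [coeff_add, coeff_sub, coeff_C_mul, coeff_X_pow]
  refine ⟨(X + 1) * (C 2 * X ^ 1 - C 3 * X ^ s), ?_, ?_, ?_, ?_⟩
  · rw [pow_one]
    exact dvd_mul_right _ _
  · rw [hc]
    rw [if_neg (by omega), if_neg (by omega), if_neg (by omega), if_neg (by omega)]
    ring
  · unfold ell
    simp only [hc]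
    rw [Finset.sum_sub_distrib, Finset.sum_sub_distrib, Finset.sum_add_distrib,
      ← Finset.mul_sum, ← Finset.mul_sum, ← Finset.mul_sum, ← Finset.mul_sum,
      Finset.sum_ite_eq', Finset.sum_ite_eq', Finset.sum_ite_eq', Finset.sum_ite_eq']
    simp only [Finset.mem_range]
    rcases Nat.lt_or_ge k 2 with h | h
    · have hk1 : k = 1 := by omega
      have hs' : s = 2 := by omega
      subst hk1
      subst hs'
      norm_num
    · have hs' : s = k := by omega
      subst hs'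
      rw [if_pos (by omega), if_pos (by omega), if_neg (by omega), if_pos (by omega)]
      norm_num
  · have hsub : ((X + 1) * (C 2 * X ^ 1 - C 3 * X ^ s) : ℝ[X]).support
        ⊆ Finset.range (n + 1) := by
      intro j hj
      rw [mem_support_iff, hc] at hj
      rw [Finset.mem_range]
      by_contra hcon
      apply hj
      rw [if_neg (by omega), if_neg (by omega), if_neg (by omega), if_neg (by omega)]
      ring
    rw [SS_eq n hsub]
    have hphi : ∀ j ∈ Finset.range (n + 1),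
        phi n j (((X + 1) * (C 2 * X ^ 1 - C 3 * X ^ s) : ℝ[X]).coeff j)
        = 2 * (if j = 2 then 1 else 0) + 2 * (if j = 1 then 1 else 0)
        - 3 * (if j = s + 1 then 1 else 0) - 3 * (if j = s then 1 else 0) := by
      intro j hj
      rw [phi, if_pos (Nat.lt_succ_iff.1 (Finset.mem_range.1 hj)), hc]
    rw [Finset.sum_congr rfl hphi]
    rw [Finset.sum_sub_distrib, Finset.sum_sub_distrib, Finset.sum_add_distrib,
      ← Finset.mul_sum, ← Finset.mul_sum, ← Finset.mul_sum, ← Finset.mul_sum,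
      Finset.sum_ite_eq', Finset.sum_ite_eq', Finset.sum_ite_eq', Finset.sum_ite_eq']
    simp only [Finset.mem_range]
    rw [if_pos (by omega), if_pos (by omega), if_pos (by omega), if_pos (by omega)]
    norm_num

theorem exists_G {n k : ℕ} (hk : 1 ≤ k) (hkn : k < n) (hn : 3 ≤ n) :
    ∃ G : ℝ[X], (X + 1) ^ n ∣ G ∧ G.coeff 0 = 0 ∧ 0 < ell k G ∧ SS n G < 0 := by
  have h : ∀ r : ℕ, 1 ≤ r →
      ∃ G : ℝ[X], (X + 1) ^ r ∣ G ∧ G.coeff 0 = 0 ∧ 0 < ell k G ∧ SS n G < 0 := by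
    intro r hr
    induction r, hr using Nat.le_induction with
    | base => exact base hk hkn hn
    | succ r hr ih =>
      obtain ⟨G, h1, h2, h3, h4⟩ := ih
      exact step hr h1 h2 h3 h4
  exact h n (by omega)

end Pool.Agent.RTV
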