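import Pool.Agent.Lib.RTV.Two

/-!
# Real polynomials and the test polynomial `(X+1)^(n-1) (X+ρ)`
-/

namespace Pool.Agent.RTV

open Filter Topology Polynomial Metric

/-- the function of a real polynomial -/
noncomputable def ev (p : ℝ[X]) : ℂ → ℂ := fun z => (p.map (algebraMap ℝ ℂ)).eval z

theorem coef_ev (p : ℝ[X]) (j : ℕ) : ‖coef (ev p) j‖ = |p.coeff j| := by
  unfold ev
  rw [coef_poly, coeff_map]
  simp

theorem ev_isHinf (p : ℝ[X]) : IsHinf (ev p) := isHinf_poly _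

theorem ev_summable (p : ℝ[X]) : Summable fun j => ‖coef (ev p) j‖ := summable_poly _

theorem normA_ev (p : ℝ[X]) {s : Finset ℕ} (hs : p.support ⊆ s) :
    normA (ev p) = ∑ j ∈ s, |p.coeff j| := by
  unfold ev
  rw [normA_poly _ (s := s) ((support_map_subset _ _).trans hs)]
  refine Finset.sum_congr rfl fun j _ => ?_
  rw [coeff_map]
  simp

theorem mahler_of_roots {p : ℂ[X]} (h : ∀ z : ℂ, ‖z‖ < 1 → p.eval z ≠ 0) :
    p.mahlerMeasure = ‖p.coeff 0‖ := by
  rw [mahlerMeasure_eq_leadingCoeff_mul_prod_roots,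
    Polynomial.Splits.coeff_zero_eq_leadingCoeff_mul_prod_roots (IsAlgClosed.splits p)]
  rw [norm_mul, norm_mul, norm_pow, norm_neg, norm_one, one_pow, one_mul]
  congr 1
  have h1 : p.roots.map (fun a => max 1 ‖a‖) = p.roots.map (fun a => ‖a‖) := by
    refine Multiset.map_congr rfl fun a ha => ?_
    refine max_eq_right ?_
    by_contra hlt
    push Not at hlt
    exact h a hlt (isRoot_of_mem_roots ha)
  rw [h1]
  exact (Multiset.prod_hom p.roots (normHom : ℂ →*₀ ℝ)).symm ▸ rfl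

theorem J_ev {p : ℝ[X]} (h : ∀ z : ℂ, ‖z‖ < 1 → ev p z ≠ 0) :
    J (ev p) = Real.log |p.coeff 0| - Real.log (normA (ev p)) := by
  have h1 : J (ev p) = (p.map (algebraMap ℝ ℂ)).logMahlerMeasure - Real.log (normA (ev p)) :=
    J_poly _
  rw [h1, logMahlerMeasure_eq_log_MahlerMeasure, mahler_of_roots h, coeff_map]
  simp

theorem ev_mem_cls {d : ℝ} {k : ℕ} {p : ℝ[X]} (h : ∀ z : ℂ, ‖z‖ < 1 → ev p z ≠ 0)
    (hc : d * normA (ev p) ≤ ∑ j ∈ Finset.range (k + 1), |p.coeff j|) : ev p ∈ cls d k := by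
  refine ⟨ev_isHinf p, ⟨0, mem_ball_self one_pos, h 0 (by simp)⟩, ev_summable p, ?_⟩
  simpa only [coef_ev] using hc

/-! ### the test polynomial -/

/-- `(X+1)^(n-1) (X+ρ)` -/
noncomputable def tst (n : ℕ) (r : ℝ) : ℝ[X] := (X + 1) ^ (n - 1) * (X + C r)

theorem tst_coeff_zero (n : ℕ) (r : ℝ) : (tst n r).coeff 0 = r := by
  rw [coeff_zero_eq_eval_zero]
  simp [tst]

theorem tst_coeff_succ (n : ℕ) (r : ℝ) (j : ℕ) :
    (tst n r).coeff (j + 1) = ((n - 1).choose j : ℝ) + r * ((n - 1).choose (j + 1) : ℝ) := by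
  unfold tst
  rw [mul_add, coeff_add, coeff_mul_X, coeff_mul_C, coeff_X_add_one_pow, coeff_X_add_one_pow]
  ring

theorem tst_coeff_pos {n : ℕ} (hn : 0 < n) {r : ℝ} (hr : 0 < r) {j : ℕ} (hj : j ≤ n) :
    0 < (tst n r).coeff j := by
  cases j with
  | zero => rw [tst_coeff_zero]; exact hr
  | succ j =>
    rw [tst_coeff_succ]
    have : 0 < ((n - 1).choose j : ℝ) := by
      exact_mod_cast Nat.choose_pos (by omega)
    positivity

theorem tst_coeff_gt {n : ℕ} (hn : 0 < n) (r : ℝ) {j : ℕ} (hj : n < j) :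
    (tst n r).coeff j = 0 := by
  obtain ⟨i, rfl⟩ : ∃ i, j = i + 1 := ⟨j - 1, by omega⟩
  rw [tst_coeff_succ, Nat.choose_eq_zero_of_lt (by omega), Nat.choose_eq_zero_of_lt (by omega)]
  simp

theorem tst_support {n : ℕ} (hn : 0 < n) (r : ℝ) : (tst n r).support ⊆ Finset.range (n + 1) := by
  intro j hj
  rw [mem_support_iff] at hj
  rw [Finset.mem_range]
  by_contra h
  exact hj (tst_coeff_gt hn r (by omega))

theorem tst_sum (n : ℕ) (r : ℝ) (k : ℕ) :
    ∑ j ∈ Finset.range (k + 1), (tst n r).coeff j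
      = (r + 1) * (∑ j ∈ Finset.range (k + 1), ((n - 1).choose j : ℝ))
        - ((n - 1).choose k : ℝ) := by
  induction k with
  | zero => simp [tst_coeff_zero]
  | succ k ih =>
    rw [Finset.sum_range_succ, ih, tst_coeff_succ, Finset.sum_range_succ _ (k + 1)]
    ring

theorem tst_normA {n : ℕ} (hn : 0 < n) {r : ℝ} (hr : 0 < r) :
    normA (ev (tst n r)) = 2 ^ (n - 1) * (r + 1) := by
  rw [normA_ev _ (tst_support hn r)]
  have h1 : ∑ j ∈ Finset.range (n + 1), |(tst n r).coeff j|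
      = ∑ j ∈ Finset.range (n + 1), (tst n r).coeff j := by
    refine Finset.sum_congr rfl fun j hj => abs_of_pos (tst_coeff_pos hn hr ?_)
    exact Nat.lt_succ_iff.1 (Finset.mem_range.1 hj)
  rw [h1, tst_sum]
  obtain ⟨m, rfl⟩ : ∃ m, n = m + 1 := ⟨n - 1, by omega⟩
  rw [Finset.sum_range_succ, Nat.add_sub_cancel]
  have h2 := Nat.sum_range_choose m
  have h3 : ∑ j ∈ Finset.range (m + 1), (m.choose j : ℝ) = 2 ^ m := by exact_mod_cast h2
  rw [h3, Nat.choose_eq_zero_of_lt (Nat.lt_succ_self m)]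
  push_cast
  ring

theorem tst_root {n : ℕ} {r : ℝ} (hr : 1 ≤ r) (z : ℂ) (hz : ‖z‖ < 1) : ev (tst n r) z ≠ 0 := by
  unfold ev tst
  simp only [Polynomial.map_mul, Polynomial.map_pow, Polynomial.map_add, map_X, map_C,
    Polynomial.map_one, eval_mul, eval_pow, eval_add, eval_X, eval_C, eval_one]
  have h1 : z + 1 ≠ 0 := by
    intro h
    have : z = -1 := by linear_combination h
    rw [this, norm_neg, norm_one] at hz
    exact lt_irrefl _ hz
  have h2 : z + (algebraMap ℝ ℂ) r ≠ 0 := by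
    intro h
    have : z = -(algebraMap ℝ ℂ) r := by linear_combination h
    rw [this, norm_neg] at hz
    have h3 : ‖(algebraMap ℝ ℂ) r‖ = |r| := by simp
    rw [h3, abs_of_nonneg (by linarith)] at hz
    linarith
  exact mul_ne_zero (pow_ne_zero _ h1) h2

/-! ### the numbers `n`, `ρ` -/

theorem choose_sum_eq (m k : ℕ) :
    ∑ j ∈ Finset.range (k + 1), ((m + 1).choose j : ℝ)
      = 2 * (∑ j ∈ Finset.range (k + 1), (m.choose j : ℝ)) - (m.choose k : ℝ) := by
  induction k with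
  | zero => simp; norm_num
  | succ k ih =>
    rw [Finset.sum_range_succ, ih, Finset.sum_range_succ _ (k + 1), Nat.choose_succ_succ]
    push_cast
    ring

theorem isN_facts {d : ℝ} {k n : ℕ} (hd1 : d < 1) (h : IsN d k n) :
    k < n ∧ 0 < (∑ j ∈ Finset.range (k + 1), ((n - 1).choose j : ℝ)) - 2 ^ (n - 1) * d ∧
      1 ≤ rho d k n ∧
      ((n - 1).choose k : ℝ) = (rho d k n + 1) *
        ((∑ j ∈ Finset.range (k + 1), ((n - 1).choose j : ℝ)) - 2 ^ (n - 1) * d) := by
  obtain ⟨hn, h1, h2⟩ := h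
  obtain ⟨m, rfl⟩ : ∃ m, n = m + 1 := ⟨n - 1, by omega⟩
  rw [Nat.add_sub_cancel] at h2 ⊢
  have hkn : k < m + 1 := by
    by_contra hcon
    have h3 : ∑ j ∈ Finset.range (k + 1), ((m + 1).choose j : ℝ) = 2 ^ (m + 1) := by
      have h4 : ∑ j ∈ Finset.range (m + 1 + 1), ((m + 1).choose j : ℝ) = 2 ^ (m + 1) := by
        exact_mod_cast Nat.sum_range_choose (m + 1)
      rw [← h4]
      symm
      refine Finset.sum_subset (Finset.range_subset_range.2 (by omega)) fun j _ hj => ?_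
      rw [Nat.choose_eq_zero_of_lt (by simpa using hj), Nat.cast_zero]
    rw [h3, div_self (by positivity)] at h1
    linarith
  have hpos : 0 < (∑ j ∈ Finset.range (k + 1), (m.choose j : ℝ)) - 2 ^ m * d := by
    rw [lt_div_iff₀ (by positivity)] at h2
    linarith
  have hc : 0 < (m.choose k : ℝ) := by exact_mod_cast Nat.choose_pos (by omega)
  have hrho : rho d k (m + 1) + 1 = (m.choose k : ℝ) /
      ((∑ j ∈ Finset.range (k + 1), (m.choose j : ℝ)) - 2 ^ m * d) := by
    unfold rho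
    rw [Nat.add_sub_cancel]
    ring
  refine ⟨hkn, hpos, ?_, ?_⟩
  · have h5 : 2 ≤ rho d k (m + 1) + 1 := by
      rw [hrho, le_div_iff₀ hpos]
      rw [choose_sum_eq, div_le_iff₀ (by positivity), pow_succ] at h1
      linarith
    linarith
  · rw [hrho, div_mul_cancel₀ _ hpos.ne']

theorem tst_conc {d : ℝ} {k n : ℕ} (hd1 : d < 1) (h : IsN d k n) :
    ∑ j ∈ Finset.range (k + 1), (tst n (rho d k n)).coeff j
      = d * (2 ^ (n - 1) * (rho d k n + 1)) := by
  obtain ⟨_, _, _, h4⟩ := isN_facts hd1 h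
  rw [tst_sum, h4]
  ring

theorem rtvValue_eq {d : ℝ} {k n : ℕ} (hd1 : d < 1) (h : IsN d k n) :
    rtvValue d k n = Real.log (rho d k n) - Real.log (2 ^ (n - 1) * (rho d k n + 1)) := by
  obtain ⟨_, _, h3, _⟩ := isN_facts hd1 h
  unfold rtvValue
  rw [Real.log_div (by linarith) (by positivity)]

/-- the conjectured value is an upper bound -/
theorem Cinf_le {d : ℝ} {k n : ℕ} (hd1 : d < 1) (h : IsN d k n) :
    Cinf d k ≤ ((rtvValue d k n : ℝ) : EReal) := by
  obtain ⟨_, _, h3, _⟩ := isN_facts hd1 h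
  have hr : (0 : ℝ) < rho d k n := by linarith
  have hm : ev (tst n (rho d k n)) ∈ cls d k := by
    refine ev_mem_cls (tst_root h3) ?_
    rw [tst_normA h.1 hr]
    have e : ∑ j ∈ Finset.range (k + 1), |(tst n (rho d k n)).coeff j|
        = ∑ j ∈ Finset.range (k + 1), (tst n (rho d k n)).coeff j := by
      refine Finset.sum_congr rfl fun j _ => abs_of_nonneg ?_
      rcases le_or_gt j n with hj | hj
      · exact (tst_coeff_pos h.1 hr hj).le
      · rw [tst_coeff_gt h.1 _ hj]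
    rw [e, tst_conc hd1 h]
  have hJ : J (ev (tst n (rho d k n))) = rtvValue d k n := by
    rw [J_ev (tst_root h3), tst_coeff_zero, abs_of_pos hr, tst_normA h.1 hr, rtvValue_eq hd1 h]
  unfold Cinf
  rw [← hJ]
  exact iInf₂_le _ hm

end Pool.Agent.RTV
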