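import Pool.Agent.Lib.RTV.Limit

/-!
# The bound `|a_0| + |a_1| - ∑_{j ≥ 2} |a_j| ≤ 2 M(p)` for the Mahler measure
-/

namespace Pool.Agent.RTV

open Filter Topology Polynomial Metric

theorem norm_eval_le {p : ℂ[X]} {m : ℕ} (hm : p.natDegree < m) {z : ℂ} (hz : ‖z‖ ≤ 1) :
    ‖p.eval z‖ ≤ ∑ j ∈ Finset.range m, ‖p.coeff j‖ := by
  rw [eval_eq_sum_range' hm]
  refine (norm_sum_le _ _).trans (Finset.sum_le_sum fun j _ => ?_)
  rw [norm_mul, norm_pow]
  exact mul_le_of_le_one_right (norm_nonneg _) (pow_le_one₀ (norm_nonneg _) hz)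

theorem coeff_zero_le (p : ℂ[X]) : ‖p.coeff 0‖ ≤ p.mahlerMeasure := by
  have := norm_coeff_le_choose_mul_mahlerMeasure 0 p
  simpa using this

theorem half_le_re {u v : ℂ} (h : ‖v - u‖ < ‖u‖) : 1 / 2 ≤ (u / v).re := by
  have hv : v ≠ 0 := by
    rintro rfl
    rw [zero_sub, norm_neg] at h
    exact lt_irrefl _ h
  have h1 : ‖v - u‖ ^ 2 < ‖u‖ ^ 2 := by
    have := norm_nonneg (v - u)
    nlinarith
  rw [← Complex.normSq_eq_norm_sq, ← Complex.normSq_eq_norm_sq, Complex.normSq_apply,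
    Complex.normSq_apply, Complex.sub_re, Complex.sub_im] at h1
  have hpos : 0 < Complex.normSq v := Complex.normSq_pos.2 hv
  rw [Complex.div_re, ← add_div, le_div_iff₀ hpos, Complex.normSq_apply]
  nlinarith

theorem eval_two (p : ℂ[X]) (z : ℂ) :
    p.eval z = p.divX.divX.eval z * z ^ 2 + p.coeff 1 * z + p.coeff 0 := by
  have h1 := congrArg (eval z) (divX_mul_X_add p)
  have h2 := congrArg (eval z) (divX_mul_X_add p.divX)
  simp only [eval_add, eval_mul, eval_X, eval_C, coeff_divX] at h1 h2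
  rw [← h1, ← h2]
  simp only [zero_add]
  ring

theorem tail_le {p : ℂ[X]} {m : ℕ} (hm : p.natDegree < m) {z : ℂ} (hz : ‖z‖ ≤ 1) :
    ‖p.divX.divX.eval z‖ ≤ ∑ j ∈ Finset.range m, ‖p.coeff (j + 2)‖ := by
  have hd : p.divX.divX.natDegree < m := by
    rw [natDegree_divX_eq_natDegree_tsub_one, natDegree_divX_eq_natDegree_tsub_one]
    omega
  refine (norm_eval_le hd hz).trans (le_of_eq ?_)
  refine Finset.sum_congr rfl fun j _ => ?_
  rw [coeff_divX, coeff_divX]

theorem exists_root {p : ℂ[X]} {m : ℕ} (hm : p.natDegree < m)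
    (h : ‖p.coeff 0‖ + ∑ j ∈ Finset.range m, ‖p.coeff (j + 2)‖ < ‖p.coeff 1‖) :
    ∃ z : ℂ, ‖z‖ < 1 ∧ p.eval z = 0 := by
  by_contra hcon
  push Not at hcon
  have hdist : ∀ z : ℂ, ‖z‖ = 1 → ‖p.eval z - p.coeff 1 * z‖ < ‖p.coeff 1 * z‖ := by
    intro z hz
    have e1 : p.eval z - p.coeff 1 * z = p.divX.divX.eval z * z ^ 2 + p.coeff 0 := by
      rw [eval_two p z]
      ring
    rw [e1, norm_mul (p.coeff 1), hz, mul_one]
    refine (norm_add_le _ _).trans_lt ?_
    rw [norm_mul, norm_pow, hz, one_pow, mul_one]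
    have := tail_le hm hz.le
    linarith
  have hne : ∀ z ∈ closedBall (0 : ℂ) 1, p.eval z ≠ 0 := by
    intro z hz
    rw [mem_closedBall_zero_iff] at hz
    rcases hz.lt_or_eq with hz1 | hz1
    · exact hcon z hz1
    · intro h0
      have := hdist z hz1
      rw [h0, zero_sub, norm_neg] at this
      exact lt_irrefl _ this
  have hd : DiffContOnCl ℂ (fun z => Complex.exp (-(p.coeff 1 * z / p.eval z)))
      (ball (0 : ℂ) 1) := by
    refine DifferentiableOn.diffContOnCl ?_
    rw [closure_ball (0 : ℂ) one_ne_zero]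
    refine DifferentiableOn.cexp (DifferentiableOn.neg ?_)
    refine DifferentiableOn.div ?_ p.differentiable.differentiableOn hne
    exact (differentiable_id.const_mul (p.coeff 1)).differentiableOn
  have h0 := Complex.norm_le_of_forall_mem_frontier_norm_le (U := ball (0 : ℂ) 1)
    (C := Real.exp (-(1 / 2))) isBounded_ball hd (fun z hz => ?_)
    (subset_closure (mem_ball_self one_pos))
  · simp only [mul_zero, zero_div, neg_zero, Complex.exp_zero, norm_one] at h0
    have := Real.exp_lt_exp.2 (show -(1 / 2 : ℝ) < 0 by norm_num)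
    rw [Real.exp_zero] at this
    linarith
  · rw [frontier_ball (0 : ℂ) one_ne_zero, mem_sphere_zero_iff_norm] at hz
    rw [Complex.norm_exp, Complex.neg_re]
    exact Real.exp_le_exp.2 (neg_le_neg (half_le_re (hdist z hz)))

theorem root_bound {p : ℂ[X]} {z0 : ℂ} (hz : ‖z0‖ < 1) (hr : p.eval z0 = 0) :
    ‖p.divX.eval z0‖ ≤ p.mahlerMeasure := by
  by_cases h0 : z0 = 0
  · subst h0
    have hc : p.coeff 0 = 0 := by rw [coeff_zero_eq_eval_zero, hr]
    have hp : p.divX * X = p := by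
      have := divX_mul_X_add p
      rwa [hc, C_0, add_zero] at this
    have hX : (X : ℂ[X]).mahlerMeasure = 1 := by
      have := mahlerMeasure_X_sub_C (0 : ℂ)
      simpa using this
    conv_rhs => rw [← hp]
    rw [mahlerMeasure_mul, hX, mul_one, ← coeff_zero_eq_eval_zero]
    exact coeff_zero_le _
  · obtain ⟨q, hq⟩ := dvd_iff_isRoot.2 hr
    have hM : p.mahlerMeasure = q.mahlerMeasure := by
      rw [hq, mahlerMeasure_mul, mahlerMeasure_X_sub_C, max_eq_left hz.le, one_mul]
    have h1 := congrArg (eval z0) (divX_mul_X_add p)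
    simp only [eval_add, eval_mul, eval_X, eval_C] at h1
    rw [hr] at h1
    have h2 : p.coeff 0 = -z0 * q.coeff 0 := by
      rw [coeff_zero_eq_eval_zero, coeff_zero_eq_eval_zero, hq]
      simp
    have h3 : p.divX.eval z0 = q.coeff 0 := by
      rw [h2] at h1
      have : (p.divX.eval z0 - q.coeff 0) * z0 = 0 := by linear_combination h1
      rcases mul_eq_zero.1 this with h | h
      · exact sub_eq_zero.1 h
      · exact absurd h h0
    rw [h3, hM]
    exact coeff_zero_le q

theorem two_bound {p : ℂ[X]} {m : ℕ} (hm : p.natDegree < m) :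
    ‖p.coeff 0‖ + ‖p.coeff 1‖ - ∑ j ∈ Finset.range m, ‖p.coeff (j + 2)‖
      ≤ 2 * p.mahlerMeasure := by
  have h0 := coeff_zero_le p
  by_cases h : ‖p.coeff 0‖ + ∑ j ∈ Finset.range m, ‖p.coeff (j + 2)‖ < ‖p.coeff 1‖
  · obtain ⟨z, hz, hr⟩ := exists_root hm h
    have h1 := root_bound hz hr
    have h2 := congrArg (eval z) (divX_mul_X_add p.divX)
    simp only [eval_add, eval_mul, eval_X, eval_C, coeff_divX, zero_add] at h2
    have h3 := tail_le hm hz.le
    have h4 : ‖p.coeff 1‖ ≤ ‖p.divX.eval z‖ + ‖p.divX.divX.eval z‖ := by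
      have e : p.coeff 1 = p.divX.eval z - p.divX.divX.eval z * z := by
        rw [← h2]
        ring
      rw [e]
      refine (norm_sub_le _ _).trans ?_
      rw [norm_mul]
      have := mul_le_of_le_one_right (norm_nonneg (p.divX.divX.eval z)) hz.le
      linarith
    linarith
  · push Not at h
    linarith

end Pool.Agent.RTV
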